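import Pool.Agent.H.MP_b27eb5_al.Var

set_option maxHeartbeats 400000

namespace Pool.Agent.H.MP_1664c7_al

open Pool.Agent.H.MP_b27eb5_al

universe u

variable {F : Type u} [Field F]

/-- Hurwitz series -/
def Hz (F : Type u) : Type u := ℕ → F

instance : AddCommGroup (Hz F) := inferInstanceAs (AddCommGroup (ℕ → F))
instance : Module F (Hz F) := inferInstanceAs (Module F (ℕ → F))

theorem add_ap (u v : Hz F) (n : ℕ) : (u + v) n = u n + v n := rfl
theorem zero_ap (n : ℕ) : (0 : Hz F) n = 0 := rfl
theorem smul_ap (r : F) (u : Hz F) (n : ℕ) : (r • u) n = r * u n := rfl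

/-- the derivation -/
def D : Hz F →ₗ[F] Hz F where
  toFun u := fun n => u (n + 1)
  map_add' _ _ := rfl
  map_smul' _ _ := rfl

/-- the integration -/
def J : Hz F →ₗ[F] Hz F where
  toFun u := fun n => Nat.casesOn n 0 u
  map_add' u v := by
    funext n
    cases n
    · simp [add_ap]
    · rfl
  map_smul' r u := by
    funext n
    cases n
    · simp [smul_ap]
    · rfl

/-- coefficients of the product -/
def hm : ℕ → Hz F → Hz F → F
  | 0, u, v => u 0 * v 0
  | n + 1, u, v => hm n (D u) v + hm n u (D v)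

theorem hm_comm (n : ℕ) : ∀ u v : Hz F, hm n u v = hm n v u := by
  induction n with
  | zero => intro u v; simp [hm, mul_comm]
  | succ n ih => intro u v; simp only [hm]; rw [ih (D u), ih u, add_comm]

theorem hm_add (n : ℕ) : ∀ u v w : Hz F, hm n (u + v) w = hm n u w + hm n v w := by
  induction n with
  | zero => intro u v w; simp [hm, add_ap, add_mul]
  | succ n ih => intro u v w; simp only [hm, map_add, ih]; ring

theorem hm_smul (r : F) (n : ℕ) : ∀ u w : Hz F, hm n (r • u) w = r * hm n u w := by
  induction n with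
  | zero => intro u w; simp [hm, smul_ap, mul_assoc]
  | succ n ih => intro u w; simp only [hm, map_smul, ih]; ring

theorem hm_zero (n : ℕ) (w : Hz F) : hm n 0 w = 0 := by
  have := hm_smul (0 : F) n 0 w
  simpa using this

instance : Mul (Hz F) := ⟨fun u v => fun n => hm n u v⟩
instance : One (Hz F) := ⟨fun n => Nat.casesOn n 1 fun _ => 0⟩

theorem mul_ap (u v : Hz F) (n : ℕ) : (u * v) n = hm n u v := rfl

theorem D_mul (u v : Hz F) : D (u * v) = D u * v + u * D v := rfl

theorem D_one : D (1 : Hz F) = 0 := rfl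

theorem hm_assoc (n : ℕ) : ∀ u v w : Hz F, hm n (u * v) w = hm n u (v * w) := by
  induction n with
  | zero => intro u v w; simp [hm, mul_ap, mul_assoc]
  | succ n ih =>
    intro u v w
    simp only [hm, D_mul, hm_add, ih]
    rw [hm_comm n u (D v * w + v * D w), hm_add, hm_comm n (D v * w), hm_comm n (v * D w)]
    ring

theorem hm_one (n : ℕ) : ∀ v : Hz F, hm n 1 v = v n := by
  induction n with
  | zero => intro v; show (1 : F) * v 0 = v 0; simp
  | succ n ih => intro v; simp only [hm, D_one, hm_zero, ih, zero_add]; rfl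

instance : CommRing (Hz F) :=
  { (inferInstance : AddCommGroup (Hz F)), (inferInstance : Mul (Hz F)),
    (inferInstance : One (Hz F)) with
    left_distrib := fun a b c => by
      funext n
      simp only [mul_ap, add_ap]
      rw [hm_comm, hm_add, hm_comm n b, hm_comm n c]
    right_distrib := fun a b c => by funext n; exact hm_add n a b c
    zero_mul := fun a => by funext n; exact hm_zero n a
    mul_zero := fun a => by funext n; rw [mul_ap, hm_comm]; exact hm_zero n a
    mul_assoc := fun a b c => by funext n; exact hm_assoc n a b c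
    one_mul := fun a => by funext n; exact hm_one n a
    mul_one := fun a => by funext n; rw [mul_ap, hm_comm]; exact hm_one n a
    mul_comm := fun a b => by funext n; exact hm_comm n a b }

instance : Algebra F (Hz F) :=
  Algebra.ofModule (fun r a b => by funext n; exact hm_smul r n a b)
    (fun r a b => by
      funext n
      rw [mul_ap, hm_comm, hm_smul, hm_comm]; rfl)

theorem DJ (u : Hz F) : D (J u) = u := rfl

theorem J0 (u : Hz F) : J u 0 = 0 := rfl

theorem mul0 (u v : Hz F) : (u * v) 0 = u 0 * v 0 := rfl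

theorem eq_zero_of (u : Hz F) (h0 : u 0 = 0) (h : D u = 0) : u = 0 := by
  funext n
  cases n with
  | zero => exact h0
  | succ n => exact congrFun h n

theorem three [CharP F 3] : (3 : Hz F) = 0 := by
  have h : (3 : F) = 0 := by exact_mod_cast CharP.cast_eq_zero F 3
  have : (3 : Hz F) = algebraMap F (Hz F) 3 := by rw [map_ofNat]
  rw [this, h, map_zero]

theorem cube [CharP F 3] (c : Hz F) : J c * J c * J c = 0 := by
  apply eq_zero_of
  · simp [mul0, J0]
  · simp only [D_mul, DJ]
    linear_combination (J c * J c * c) * three (F := F)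

/-- the underlying space -/
abbrev V (F : Type u) : Type u := Hz F × Hz F × Hz F

/-- the product -/
def pr (x y : V F) : V F :=
  (J x.2.2 * y.1 - J y.2.2 * x.1, J x.2.2 * y.2.1 - J y.2.2 * x.2.1,
    x.1 * y.2.1 - y.1 * x.2.1 + J x.2.2 * y.2.2 - J y.2.2 * x.2.2)

/-- the product as a bilinear map -/
def m : V F →ₗ[F] V F →ₗ[F] V F :=
  LinearMap.mk₂ F pr
    (fun x x' y => by ext <;> simp [pr] <;> ring)
    (fun r x y => by ext <;> simp [pr, smul_sub, smul_add])
    (fun x y y' => by ext <;> simp [pr] <;> ring)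
    (fun r x y => by ext <;> simp [pr, smul_sub, smul_add])

theorem m_ap (x y : V F) : m x y = pr x y := rfl

theorem pr_self (x : V F) : pr x x = 0 := by
  ext <;> simp [pr]

theorem key [CharP F 3] (x y : V F) :
    J (pr (pr x y) y).2.2 = J y.2.2 * J (pr x y).2.2 - J y.2.2 * J y.2.2 * J x.2.2 := by
  rw [← sub_eq_zero]
  apply eq_zero_of
  · show J (pr (pr x y) y).2.2 0 - ((J y.2.2 * J (pr x y).2.2) 0
      - (J y.2.2 * J y.2.2 * J x.2.2) 0) = 0
    simp [mul0, J0]
  · simp only [map_sub, D_mul, DJ]
    obtain ⟨p, q, r⟩ := x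
    obtain ⟨a, b, c⟩ := y
    have e : (pr (p, q, r) (a, b, c)).2.2 = p * b - a * q + J r * c - J c * r := rfl
    have e2 : (pr (pr (p, q, r) (a, b, c)) (a, b, c)).2.2 =
        (J r * a - J c * p) * b - a * (J r * b - J c * q)
          + J (pr (p, q, r) (a, b, c)).2.2 * c - J c * (pr (p, q, r) (a, b, c)).2.2 := rfl
    rw [e2]
    generalize J (pr (p, q, r) (a, b, c)).2.2 = W
    rw [e]
    linear_combination (J c * J c * r - J c * (p * b - a * q)) * three (F := F)

theorem engel [CharP F 3] (x y : V F) : pr (pr (pr x y) y) y = 0 := by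
  have k := key x y
  have hc := cube y.2.2
  obtain ⟨p, q, r⟩ := x
  obtain ⟨a, b, c⟩ := y
  have e : pr (p, q, r) (a, b, c) =
      (J r * a - J c * p, J r * b - J c * q, p * b - a * q + J r * c - J c * r) := rfl
  rw [e] at k ⊢
  simp only at k hc
  set W := J (p * b - a * q + J r * c - J c * r) with hW
  have e2 : pr (J r * a - J c * p, J r * b - J c * q, p * b - a * q + J r * c - J c * r)
      (a, b, c) = (W * a - J c * (J r * a - J c * p), W * b - J c * (J r * b - J c * q),
        (J r * a - J c * p) * b - a * (J r * b - J c * q) + W * c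
          - J c * (p * b - a * q + J r * c - J c * r)) := rfl
  rw [e2] at k ⊢
  simp only at k
  ext
  · simp only [pr, k, Prod.fst_zero]
    linear_combination (-p) * hc
  · simp only [pr, k, Prod.snd_zero, Prod.fst_zero]
    linear_combination (-q) * hc
  · simp only [pr, k, Prod.snd_zero]
    linear_combination (-r) * hc + (J c * J c * (p * b - a * q)) * three (F := F)

theorem J_ne {u : Hz F} (h : u ≠ 0) : J u ≠ 0 := fun e => h (by rw [← DJ u, e, map_zero])

theorem pr_ef (u : Hz F) : pr (u, 0, 0) ((0, 1, 0) : V F) = (0, 0, u) := by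
  ext <;> simp [pr]

theorem pr_he (u : Hz F) : pr (0, 0, u) ((1, 0, 0) : V F) = (J u, 0, 0) := by
  ext <;> simp [pr]

theorem one_ne : (1 : Hz F) ≠ 0 := fun e => one_ne_zero (α := F) (congrFun e 0)

/-- the first generator -/
def ga (F : Type u) [Field F] : Alg (m (F := F)) := toA m ((1, 0, 0) : V F)

/-- the second generator -/
def gb (F : Type u) [Field F] : Alg (m (F := F)) := toA m ((0, 1, 0) : V F)

theorem long (S : NonUnitalSubalgebra F (Alg (m (F := F)))) (ha : ga F ∈ S)
    (hb : gb F ∈ S) (n : ℕ) :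
    ∃ w : FreeMagma S, w.length = n + 1 ∧ ∃ u : Hz F, u ≠ 0 ∧
      (FreeMagma.lift Subtype.val w = toA m ((u, 0, 0) : V F) ∨
        FreeMagma.lift Subtype.val w = toA m ((0, 0, u) : V F)) := by
  induction n with
  | zero => exact ⟨FreeMagma.of ⟨_, ha⟩, rfl, 1, one_ne, Or.inl rfl⟩
  | succ n ih =>
    obtain ⟨w, hw, u, hu, h | h⟩ := ih
    · refine ⟨w * FreeMagma.of ⟨_, hb⟩, by simp [FreeMagma.length, hw], u, hu, Or.inr ?_⟩
      rw [map_mul, h, FreeMagma.lift_of]
      exact congrArg (toA m) (pr_ef u)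
    · refine ⟨w * FreeMagma.of ⟨_, ha⟩, by simp [FreeMagma.length, hw], J u, J_ne hu, Or.inl ?_⟩
      rw [map_mul, h, FreeMagma.lift_of]
      exact congrArg (toA m) (pr_he u)

theorem main (F : Type u) [Field F] [CharP F 3] :
    ∃ (A : Type u) (_ : NonUnitalNonAssocRing A) (_ : Module F A) (_ : IsScalarTower F A A)
      (_ : SMulCommClass F A A), (∀ x : A, x * x = 0) ∧ (∀ x y : A, x * y * y * y = 0) ∧
      ∃ a b : A, ∀ N : ℕ, 1 ≤ N →
        ∃ w : FreeMagma (NonUnitalAlgebra.adjoin F ({a, b} : Set A)),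
          w.length = N ∧ FreeMagma.lift Subtype.val w ≠ (0 : A) := by
  refine ⟨Alg (m (F := F)), inferInstance, inferInstance, inferInstance, inferInstance,
    fun x => pr_self x, fun x y => engel x y, ga F, gb F, fun N hN => ?_⟩
  obtain ⟨n, rfl⟩ : ∃ n, N = n + 1 := ⟨N - 1, by omega⟩
  obtain ⟨w, hw, u, hu, h⟩ := long (NonUnitalAlgebra.adjoin F _)
    (NonUnitalAlgebra.subset_adjoin F (s := {ga F, gb F}) (by simp))
    (NonUnitalAlgebra.subset_adjoin F (by simp)) n
  refine ⟨w, hw, ?_⟩
  rcases h with h | h <;> rw [h] <;> intro e <;> apply hu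
  · exact congrArg Prod.fst ((toA m).map_eq_zero_iff.1 e)
  · exact congrArg (fun z : V F => z.2.2) ((toA m).map_eq_zero_iff.1 e)

end Pool.Agent.H.MP_1664c7_al
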